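import Pool.Agent.helper81.CW.Spec2

/-! # Project cw: module J4 (support function of a set in a ball) -/

open MeasureTheory Set
open scoped ENNReal

namespace Pool.Agent.helper81.CW

theorem J4 : J4_stmt := by
  intro n C R hne hR hC
  have hbdd : ∀ u : E n, BddAbove ((fun x => (inner ℝ u x : ℝ)) '' C) := by
    intro u
    refine ⟨‖u‖ * R, ?_⟩
    rintro _ ⟨x, hx, rfl⟩
    calc (inner ℝ u x : ℝ) ≤ ‖u‖ * ‖x‖ := real_inner_le_norm u x
      _ ≤ ‖u‖ * R := mul_le_mul_of_nonneg_left (hC x hx) (norm_nonneg u)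
  have hle : ∀ x ∈ C, ∀ u, (inner ℝ u x : ℝ) ≤ supp C u := by
    intro x hx u
    exact le_csSup (hbdd u) ⟨x, hx, rfl⟩
  have hub : ∀ (u : E n) (a : ℝ), (∀ x ∈ C, (inner ℝ u x : ℝ) ≤ a) → supp C u ≤ a := by
    intro u a ha
    refine csSup_le (hne.image _) ?_
    rintro _ ⟨x, hx, rfl⟩
    exact ha x hx
  have hdiff : ∀ u v : E n, supp C u - supp C v ≤ R * ‖u - v‖ := by
    intro u v
    rw [sub_le_iff_le_add]
    refine hub u _ ?_
    intro x hx
    have h1 := hle x hx v
    have h2 : (inner ℝ u x : ℝ) = inner ℝ (u - v) x + inner ℝ v x := by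
      rw [← inner_add_left, sub_add_cancel]
    have h3 : (inner ℝ (u - v) x : ℝ) ≤ R * ‖u - v‖ := by
      calc (inner ℝ (u - v) x : ℝ) ≤ ‖u - v‖ * ‖x‖ := real_inner_le_norm _ x
        _ ≤ ‖u - v‖ * R := mul_le_mul_of_nonneg_left (hC x hx) (norm_nonneg _)
        _ = R * ‖u - v‖ := mul_comm _ _
    linarith
  refine ⟨hle, ?_, ?_⟩
  · intro u v
    rw [abs_le]
    constructor
    · have h := hdiff v u
      rw [norm_sub_rev] at h
      linarith
    · exact hdiff u v
  · intro u t ht
    rcases eq_or_lt_of_le ht with h0 | h0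
    · rw [← h0, zero_smul, zero_mul]
      apply le_antisymm
      · refine hub 0 0 ?_
        intro x _
        rw [inner_zero_left]
      · obtain ⟨x, hx⟩ := hne
        have h := hle x hx 0
        rwa [inner_zero_left] at h
    · apply le_antisymm
      · refine hub _ _ ?_
        intro x hx
        rw [real_inner_smul_left]
        exact mul_le_mul_of_nonneg_left (hle x hx u) ht
      · rw [← le_div_iff₀' h0]
        refine hub _ _ ?_
        intro x hx
        rw [le_div_iff₀' h0, ← real_inner_smul_left]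
        exact hle x hx _

end Pool.Agent.helper81.CW
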